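import Pool.Agent.R30.K9Cert
import Pool.Agent.Helper770.VanKampen

set_option autoImplicit false

/-! No self-complementary graph on nine vertices is planar. -/

namespace Pool.Agent.R30.K9

open Set

/-- A drawing in the plane without crossings of independent edges. -/
def Plane (H : Fin 9 → Fin 9 → Prop) : Prop :=
  ∃ (p : Fin 9 → ℂ) (γ : Fin 9 → Fin 9 → ℝ → ℂ), Function.Injective p ∧
    (∀ u v, u ≠ v → H u v → ContinuousOn (γ u v) (Icc 0 1) ∧ γ u v 0 = p u ∧ γ u v 1 = p v ∧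
      ∀ t, 0 < t → t < 1 → ∀ w, γ u v t ≠ p w) ∧
    (∀ u v a b, u ≠ v → a ≠ b → H u v → H a b → u ≠ a → u ≠ b → v ≠ a → v ≠ b →
      ∀ s t, 0 < s → s < 1 → 0 < t → t < 1 → γ u v s ≠ γ a b t)

lemma Plane.transport {H H' : Fin 9 → Fin 9 → Prop} (h : Plane H) (e : Equiv.Perm (Fin 9))
    (he : ∀ u v, H' u v ↔ H (e u) (e v)) : Plane H' := by
  obtain ⟨p, γ, hp, h1, h2⟩ := h
  refine ⟨fun u => p (e u), fun u v => γ (e u) (e v), fun u v huv => e.injective (hp huv), ?_, ?_⟩
  · intro u v huv hH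
    obtain ⟨a1, a2, a3, a4⟩ := h1 (e u) (e v) (fun h => huv (e.injective h)) ((he u v).mp hH)
    exact ⟨a1, a2, a3, fun t h0 h1 w => a4 t h0 h1 (e w)⟩
  · intro u v a b huv hab hu ha n1 n2 n3 n4 s t
    exact h2 (e u) (e v) (e a) (e b) (fun h => huv (e.injective h)) (fun h => hab (e.injective h))
      ((he u v).mp hu) ((he a b).mp ha) (fun h => n1 (e.injective h)) (fun h => n2 (e.injective h))
      (fun h => n3 (e.injective h)) (fun h => n4 (e.injective h)) s t

lemma beta_bet (a b c d : Fin 9) :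
    Pool.Agent.Helper770.VanKampen.beta a b c d = b2z (bet (a, b, c, d)) := by
  unfold Pool.Agent.Helper770.VanKampen.beta bet
  rw [b2z_xor]
  simp only [b2z, decide_eq_true_eq]

lemma Plane.labels {H : Fin 9 → Fin 9 → Prop} (h : Plane H) : ∃ m, Rel H m := by
  obtain ⟨p, γ, hp, h1, h2⟩ := h
  have cl : ∀ t : ℝ, (max 0 (min t 1) : ℝ) ∈ Icc (0 : ℝ) 1 := fun t =>
    ⟨le_max_left _ _, max_le zero_le_one (min_le_right _ _)⟩
  have key : ∀ (a b : Fin 9), a < b → H a b → ∀ t : ℝ,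
      γ a b (max 0 (min t 1)) = p a ∨ γ a b (max 0 (min t 1)) = p b ∨
      (0 < max 0 (min t 1) ∧ max 0 (min t 1) < (1 : ℝ)) := by
    intro a b hab hE t
    obtain ⟨-, e0, e1, -⟩ := h1 a b hab.ne hE
    rcases eq_or_lt_of_le (cl t).1 with h | h
    · left; rw [← h]; exact e0
    · rcases eq_or_lt_of_le (cl t).2 with h' | h'
      · right; left; rw [h']; exact e1
      · exact Or.inr (Or.inr ⟨h, h'⟩)
  have avoid : ∀ a b c : Fin 9, a < b → H a b → c ≠ a → c ≠ b → ∀ t : ℝ,
      γ a b (max 0 (min t 1)) ≠ p c := by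
    intro a b c hab hE hca hcb t
    rcases key a b hab hE t with h | h | ⟨h, h'⟩
    · rw [h]; exact fun h => hca (hp h).symm
    · rw [h]; exact fun h => hcb (hp h).symm
    · exact (h1 a b hab.ne hE).2.2.2 _ h h' c
  have hcl0 : (max 0 (min (0 : ℝ) 1)) = 0 := by norm_num
  have hcl1 : (max 0 (min (1 : ℝ) 1)) = 1 := by norm_num
  obtain ⟨m, hm⟩ := Pool.Agent.Helper770.VanKampen.exists_labels p hp H
    (fun a b t => γ a b (max 0 (min t 1)))
    (fun a b hab hE => (h1 a b hab.ne hE).1.comp_continuous (by fun_prop) cl)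
    (fun a b hab hE => by rw [hcl0]; exact (h1 a b hab.ne hE).2.1)
    (fun a b hab hE => by rw [hcl1]; exact (h1 a b hab.ne hE).2.2.1) avoid
  · refine ⟨m, ?_⟩
    intro a b c d hab hcd hE hE' n1 n2 n3 n4
    rw [← beta_bet]
    refine hm a b c d hab hcd hE hE' n1 n2 n3 n4 ?_
    intro s t
    rcases key a b hab hE s with h | h | ⟨h, h'⟩
    · rw [h]; exact (avoid c d a hcd hE' n1 n2 t).symm
    · rw [h]; exact (avoid c d b hcd hE' n3 n4 t).symm
    · rcases key c d hcd hE' t with g | g | ⟨g, g'⟩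
      · rw [g]; exact (h1 a b hab.ne hE).2.2.2 _ h h' c
      · rw [g]; exact (h1 a b hab.ne hE).2.2.2 _ h h' d
      · exact h2 a b c d hab.ne hcd.ne hE hE' n1 n2 n3 n4 _ _ h h' g g'

/-- core: a table of orbits, covered by valid certificates -/
lemma core (H : Fin 9 → Fin 9 → Prop) (hP : Plane H)
    (tab : List ℕ) (certs : List (List ℕ)) (bits : List Bool)
    (hv : certs.all (fun c => valid (c.map dec)) = true)
    (hc : covers tab certs bits = true)
    (hadj : ∀ a b : Fin 9, a ≠ b → adjT tab bits a b = true → H a b) : False := by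
  obtain ⟨m, hm⟩ := hP.labels
  obtain ⟨c, hcm, hcc⟩ := List.any_eq_true.mp hc
  have hvc := List.all_eq_true.mp hv c hcm
  refine no_labels H m hm (c.map dec) hvc ?_
  intro q hq
  have hs : shape q = true := by
    simp only [valid, Bool.and_eq_true] at hvc
    exact List.all_eq_true.mp hvc.1.1 q hq
  obtain ⟨k, hk, rfl⟩ := List.mem_map.mp hq
  have h := List.all_eq_true.mp hcc k hk
  rw [Bool.and_eq_true] at h
  simp only [shape, Bool.and_eq_true, decide_eq_true_eq] at hs
  obtain ⟨⟨⟨⟨⟨h1, h2⟩, -⟩, -⟩, -⟩, -⟩ := hs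
  exact ⟨hadj _ _ h1.ne h.1, hadj _ _ h2.ne h.2⟩

def sA : Fin 9 → Fin 9 := ![1, 2, 3, 4, 5, 6, 7, 0, 8]
def sA' : Fin 9 → Fin 9 := ![7, 0, 1, 2, 3, 4, 5, 6, 8]
def sB : Fin 9 → Fin 9 := ![1, 2, 3, 0, 5, 6, 7, 4, 8]
def sB' : Fin 9 → Fin 9 := ![3, 0, 1, 2, 7, 4, 5, 6, 8]

def pA : Equiv.Perm (Fin 9) := ⟨sA, sA', by decide, by decide⟩
def pB : Equiv.Perm (Fin 9) := ⟨sB, sB', by decide, by decide⟩

/-- representatives of the orbits of pairs -/
def rA : List (Fin 9 × Fin 9) := [(0, 1), (0, 2), (0, 3), (0, 4), (0, 8)]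
def rB : List (Fin 9 × Fin 9) :=
  [(0, 1), (0, 2), (0, 4), (0, 5), (0, 6), (0, 7), (0, 8), (4, 5), (4, 6), (4, 8)]

lemma tabA_spec : ∀ a b : Fin 9, a ≠ b → ∃ k : Fin 8, ∃ j : Fin 5,
    tabA.getD (a.val * 9 + b.val) 0 = 2 * j.val + k.val % 2 ∧
    ((sA^[k.val] (rA.getD j.val (0, 0)).1 = a ∧ sA^[k.val] (rA.getD j.val (0, 0)).2 = b) ∨
     (sA^[k.val] (rA.getD j.val (0, 0)).1 = b ∧ sA^[k.val] (rA.getD j.val (0, 0)).2 = a)) := by
  decide +kernel

lemma tabB_spec : ∀ a b : Fin 9, a ≠ b → ∃ k : Fin 8, ∃ j : Fin 10,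
    tabB.getD (a.val * 9 + b.val) 0 = 2 * j.val + k.val % 2 ∧
    ((sB^[k.val] (rB.getD j.val (0, 0)).1 = a ∧ sB^[k.val] (rB.getD j.val (0, 0)).2 = b) ∨
     (sB^[k.val] (rB.getD j.val (0, 0)).1 = b ∧ sB^[k.val] (rB.getD j.val (0, 0)).2 = a)) := by
  decide +kernel

/-- iterating a complementing permutation -/
lemma iter (H : Fin 9 → Fin 9 → Prop) (s : Fin 9 → Fin 9) (hs : Function.Injective s)
    (h : ∀ a b, a ≠ b → (H (s a) (s b) ↔ ¬ H a b)) (a b : Fin 9) (hab : a ≠ b) (k : ℕ) :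
    (H (s^[k] a) (s^[k] b) ↔ (H a b ↔ k % 2 = 0)) := by
  induction k with
  | zero => simp
  | succ k ih =>
    rw [Function.iterate_succ', Function.comp_apply, Function.comp_apply,
      h _ _ (fun he => hab (hs.iterate k he)), ih]
    by_cases hh : H a b
    · simp only [hh, true_iff]; omega
    · simp only [hh, false_iff]; omega

lemma xor_aux (b : Bool) (j k : ℕ) : xor b ((2 * j + k % 2) % 2 == 1) = true →
    ((b = true) ↔ k % 2 = 0) := by
  have : (2 * j + k % 2) % 2 = k % 2 := by omega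
  rw [this]
  rcases Nat.mod_two_eq_zero_or_one k with h | h <;> rw [h] <;> cases b <;> simp

lemma rA_ne : ∀ j : Fin 5, (rA.getD j.val (0, 0)).1 ≠ (rA.getD j.val (0, 0)).2 := by decide
lemma rB_ne : ∀ j : Fin 10, (rB.getD j.val (0, 0)).1 ≠ (rB.getD j.val (0, 0)).2 := by decide

theorem noA (H : Fin 9 → Fin 9 → Prop) (hsymm : ∀ a b, H a b → H b a)
    (h : ∀ a b, a ≠ b → (H (sA a) (sA b) ↔ ¬ H a b)) (hP : Plane H) : False := by
  classical
  have hinj : Function.Injective sA := pA.injective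
  refine core H hP tabA certsA [decide (H 0 1), decide (H 0 2), decide (H 0 3), decide (H 0 4),
    decide (H 0 8)] validA (coverA _ _ _ _ _) ?_
  intro a b hab hadj
  obtain ⟨k, j, ht, hor⟩ := tabA_spec a b hab
  unfold adjT at hadj
  rw [ht] at hadj
  have hd : (2 * j.val + k.val % 2) / 2 = j.val := by omega
  rw [hd] at hadj
  have hx := xor_aux _ _ _ hadj
  have hr := rA_ne j
  have hb : ([decide (H 0 1), decide (H 0 2), decide (H 0 3), decide (H 0 4),
    decide (H 0 8)].getD j.val false = true) ↔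
      H (rA.getD j.val (0, 0)).1 (rA.getD j.val (0, 0)).2 := by
    clear hx hadj ht hor hd hr
    fin_cases j <;> simp [rA]
  rw [hb] at hx
  have hi := (iter H sA hinj h _ _ hr k.val).mpr hx
  rcases hor with ⟨e1, e2⟩ | ⟨e1, e2⟩
  · rw [e1, e2] at hi; exact hi
  · rw [e1, e2] at hi; exact hsymm _ _ hi

theorem noB (H : Fin 9 → Fin 9 → Prop) (hsymm : ∀ a b, H a b → H b a)
    (h : ∀ a b, a ≠ b → (H (sB a) (sB b) ↔ ¬ H a b)) (hP : Plane H) : False := by
  classical
  have hinj : Function.Injective sB := pB.injective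
  refine core H hP tabB certsB [decide (H 0 1), decide (H 0 2), decide (H 0 4), decide (H 0 5),
    decide (H 0 6), decide (H 0 7), decide (H 0 8), decide (H 4 5), decide (H 4 6),
    decide (H 4 8)] validB (coverB _ _ _ _ _ _ _ _ _ _) ?_
  intro a b hab hadj
  obtain ⟨k, j, ht, hor⟩ := tabB_spec a b hab
  unfold adjT at hadj
  rw [ht] at hadj
  have hd : (2 * j.val + k.val % 2) / 2 = j.val := by omega
  rw [hd] at hadj
  have hx := xor_aux _ _ _ hadj
  have hr := rB_ne j
  have hb : ([decide (H 0 1), decide (H 0 2), decide (H 0 4), decide (H 0 5),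
    decide (H 0 6), decide (H 0 7), decide (H 0 8), decide (H 4 5), decide (H 4 6),
    decide (H 4 8)].getD j.val false = true) ↔
      H (rB.getD j.val (0, 0)).1 (rB.getD j.val (0, 0)).2 := by
    clear hx hadj ht hor hd hr
    fin_cases j <;> simp [rB]
  rw [hb] at hx
  have hi := (iter H sB hinj h _ _ hr k.val).mpr hx
  rcases hor with ⟨e1, e2⟩ | ⟨e1, e2⟩
  · rw [e1, e2] at hi; exact hi
  · rw [e1, e2] at hi; exact hsymm _ _ hi

/-- a complementing permutation has all cycle lengths divisible by four -/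
lemma four_dvd (H : Fin 9 → Fin 9 → Prop) (hsymm : ∀ a b, H a b → H b a)
    (σ : Equiv.Perm (Fin 9)) (h : ∀ a b, a ≠ b → (H (σ a) (σ b) ↔ ¬ H a b))
    (n : ℕ) (hn : n ∈ σ.cycleType) : 4 ∣ n := by
  have hpow : ∀ k : ℕ, ∀ x, (σ^[k]) x = (σ ^ k) x := fun k x => by
    rw [Equiv.Perm.iterate_eq_pow]
  rw [Equiv.Perm.mem_cycleType_iff] at hn
  obtain ⟨c, τ, hστ, hdis, hc, hcard⟩ := hn
  obtain ⟨x, hx⟩ := hc.nonempty_support
  have hxc : c x ≠ x := Equiv.Perm.mem_support.mp hx
  have horder : orderOf c = n := by rw [hc.orderOf]; exact hcard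
  -- powers of `σ` on the support of `c`
  have hpw : ∀ k : ℕ, (σ ^ k) x = (c ^ k) x := by
    intro k
    rw [hστ, hdis.commute.mul_pow, Equiv.Perm.mul_apply]
    have : (τ ^ k) x = x := by
      rw [← Equiv.Perm.notMem_support]
      intro hh
      have hh' : x ∈ τ.support := Equiv.Perm.support_pow_le τ k hh
      exact Finset.disjoint_left.mp hdis.disjoint_support hx hh'
    rw [this]
  have hper : ∀ k : ℕ, (σ ^ k) x = x ↔ n ∣ k := by
    intro k
    rw [hpw k, ← horder, orderOf_dvd_iff_pow_eq_one, hc.pow_eq_one_iff' hxc]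
  have hn2 : 2 ≤ n := by
    rw [← hcard]; exact hc.two_le_card_support
  have hsig : σ x ≠ x := by
    intro hh
    have := (hper 1).mp (by simpa using hh)
    have := Nat.le_of_dvd one_pos this
    omega
  by_contra h4
  rcases Nat.even_or_odd n with he | ho
  · obtain ⟨j, hj⟩ := he
    have hjodd : j % 2 = 1 := by omega
    have hj0 : (σ ^ j) x ≠ x := by
      intro hh
      have := Nat.le_of_dvd (by omega) ((hper j).mp hh)
      omega
    have hi := iter H σ σ.injective h x ((σ ^ j) x) hj0.symm j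
    rw [hpow, hpow, ← Equiv.Perm.mul_apply, ← pow_add, ← hj, (hper n).mpr dvd_rfl] at hi
    by_cases hH : H x ((σ ^ j) x)
    · have := hi.mp (hsymm _ _ hH)
      have := this.mp hH
      omega
    · have : (H x ((σ ^ j) x) ↔ j % 2 = 0) := by
        constructor
        · intro hh; exact absurd hh hH
        · intro hh; omega
      exact hH (hsymm _ _ (hi.mpr this))
  · have hodd : n % 2 = 1 := Nat.odd_iff.mp ho
    have hi := iter H σ σ.injective h x (σ x) hsig.symm n
    have e2 : (σ ^ n) (σ x) = σ x := by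
      rw [← Equiv.Perm.mul_apply, ← pow_succ, pow_succ', Equiv.Perm.mul_apply,
        (hper n).mpr dvd_rfl]
    rw [hpow, hpow, (hper n).mpr dvd_rfl, e2] at hi
    by_cases hH : H x (σ x)
    · have := (hi.mp hH).mp hH
      omega
    · have : (H x (σ x) ↔ n % 2 = 0) := by
        constructor
        · intro hh; exact absurd hh hH
        · intro hh; omega
      exact hH (hi.mpr this)

lemma ctA : pA.cycleType = {8} := by decide +kernel
lemma ctB : pB.cycleType = {4, 4} := by decide +kernel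

lemma ct_cases (s : Multiset ℕ) (h4 : ∀ n ∈ s, 4 ∣ n) (h2 : ∀ n ∈ s, 2 ≤ n) (hlo : 8 ≤ s.sum)
    (hhi : s.sum ≤ 9) : s = {8} ∨ s = {4, 4} := by
  have hle : ∀ n ∈ s, n ≤ 9 := fun n hn => (Multiset.single_le_sum (by simp) n hn).trans hhi
  by_cases h8 : 8 ∈ s
  · left
    obtain ⟨t, rfl⟩ := Multiset.exists_cons_of_mem h8
    rw [Multiset.sum_cons] at hhi
    have ht : t = 0 := by
      by_contra hne
      obtain ⟨a, ha⟩ := Multiset.exists_mem_of_ne_zero hne
      have h1 := h2 a (Multiset.mem_cons_of_mem ha)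
      have h3 : a ≤ t.sum := Multiset.single_le_sum (by simp) a ha
      omega
    rw [ht]; rfl
  · right
    have hall : ∀ n ∈ s, n = 4 := by
      intro n hn
      have h1 := h4 n hn
      have h3 := hle n hn
      have h5 := h2 n hn
      have h6 : n ≠ 8 := fun h => h8 (h ▸ hn)
      omega
    have hs := Multiset.eq_replicate_card.mpr hall
    have hsum : s.sum = Multiset.card s * 4 := by
      conv_lhs => rw [hs]
      rw [Multiset.sum_replicate, smul_eq_mul]
    have hc : Multiset.card s = 2 := by omega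
    rw [hs, hc]; rfl

/-- **No self-complementary graph on nine vertices is planar.** -/
theorem no_selfcompl_plane (H : Fin 9 → Fin 9 → Prop) (hsymm : ∀ a b, H a b → H b a)
    (σ : Equiv.Perm (Fin 9)) (h : ∀ a b, a ≠ b → (H (σ a) (σ b) ↔ ¬ H a b)) : ¬ Plane H := by
  intro hP
  have hlo : 8 ≤ σ.cycleType.sum := by
    rw [Equiv.Perm.sum_cycleType]
    by_contra hlt
    push Not at hlt
    have hc : 1 < (σ.supportᶜ).card := by
      rw [Finset.card_compl, Fintype.card_fin]; omega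
    obtain ⟨x, hx, y, hy, hxy⟩ := Finset.one_lt_card.mp hc
    rw [Finset.mem_compl, Equiv.Perm.notMem_support] at hx hy
    have := h x y hxy
    rw [hx, hy] at this
    tauto
  have hhi : σ.cycleType.sum ≤ 9 := by
    rw [Equiv.Perm.sum_cycleType]
    exact (Finset.card_le_univ _).trans (by simp)
  have hfin : ∀ (τ : Equiv.Perm (Fin 9)), IsConj σ τ →
      ∃ H' : Fin 9 → Fin 9 → Prop, (∀ a b, H' a b → H' b a) ∧
        (∀ a b, a ≠ b → (H' (τ a) (τ b) ↔ ¬ H' a b)) ∧ Plane H' := by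
    intro τ hτ
    obtain ⟨c, hc⟩ := isConj_iff.mp hτ
    refine ⟨fun a b => H (c⁻¹ a) (c⁻¹ b), fun a b => hsymm _ _, ?_,
      hP.transport c⁻¹ (fun u v => Iff.rfl)⟩
    intro a b hab
    have e : ∀ x, c⁻¹ (τ x) = σ (c⁻¹ x) := by
      intro x
      rw [← hc]
      simp [Equiv.Perm.mul_apply]
    simp only [e]
    exact h _ _ (fun hh => hab (c⁻¹.injective hh))
  rcases ct_cases σ.cycleType (four_dvd H hsymm σ h)
    (fun n hn => Equiv.Perm.two_le_of_mem_cycleType hn) hlo hhi with hct | hct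
  · obtain ⟨H', h1, h2, h3⟩ := hfin pA
      (Equiv.Perm.isConj_iff_cycleType_eq.mpr (hct.trans ctA.symm))
    exact noA H' h1 h2 h3
  · obtain ⟨H', h1, h2, h3⟩ := hfin pB
      (Equiv.Perm.isConj_iff_cycleType_eq.mpr (hct.trans ctB.symm))
    exact noB H' h1 h2 h3

end Pool.Agent.R30.K9
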