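import Mathlib

set_option autoImplicit false

/-! An explicit drawing of `K₉` in two planes with a single crossing. -/

namespace Pool.Agent.R30.K9

/-- integer coordinates of the vertices in the two planes -/
def cx : Fin 2 → Fin 9 → ℤ :=
  ![![22, 4, 16, 20, 3, 9, 1, 8, 7], ![1, 23, 16, 1, 14, 14, 12, 13, 15]]
def cy : Fin 2 → Fin 9 → ℤ :=
  ![![22, 19, 14, 20, 21, 21, 23, 12, 11], ![12, 23, 9, 22, 4, 2, 13, 11, 1]]

/-- colours of the edges -/
def colTab : List (Fin 9 × Fin 9) :=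
  [(0,3), (1,4), (1,7), (1,8), (2,3), (2,8), (3,4), (3,5), (3,6), (3,7), (3,8), (4,5), (4,6),
   (4,7), (4,8), (5,6), (5,7), (6,8), (7,8)]

def col (u v : Fin 9) : Fin 2 := if (u, v) ∈ colTab ∨ (v, u) ∈ colTab then 0 else 1

lemma col_symm (u v : Fin 9) : col u v = col v u := by
  unfold col; simp only [or_comm]

/-- integer orientation -/
def oz (i : Fin 2) (a b c : Fin 9) : ℤ :=
  (cx i b - cx i a) * (cy i c - cy i a) - (cy i b - cy i a) * (cx i c - cx i a)

lemma gen : ∀ (i : Fin 2) (a b c : Fin 9), a ≠ b → c ≠ a → c ≠ b → oz i a b c ≠ 0 := by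
  decide +kernel

/-- the eight orderings of the crossing pair -/
def eight : Finset (Fin 9 × Fin 9 × Fin 9 × Fin 9) :=
  {(3, 4, 5, 7), (4, 3, 5, 7), (3, 4, 7, 5), (4, 3, 7, 5),
   (5, 7, 3, 4), (7, 5, 3, 4), (5, 7, 4, 3), (7, 5, 4, 3)}

lemma only : ∀ (i : Fin 2) (u v a b : Fin 9), u ≠ v → a ≠ b → col u v = i → col a b = i →
    oz i u v a * oz i u v b < 0 → oz i a b u * oz i a b v < 0 →
    i = 0 ∧ (u, v, a, b) ∈ eight := by
  decide +kernel

/-- positions -/
noncomputable def pt (i : Fin 2) (v : Fin 9) : ℂ := ⟨(cx i v : ℝ), (cy i v : ℝ)⟩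

/-- the segment -/
noncomputable def sg (i : Fin 2) (u v : Fin 9) (t : ℝ) : ℂ :=
  ⟨(1 - t) * (cx i u : ℝ) + t * (cx i v : ℝ), (1 - t) * (cy i u : ℝ) + t * (cy i v : ℝ)⟩

lemma sg_zero (i : Fin 2) (u v : Fin 9) : sg i u v 0 = pt i u := by
  apply Complex.ext <;> simp [sg, pt]

lemma sg_one (i : Fin 2) (u v : Fin 9) : sg i u v 1 = pt i v := by
  apply Complex.ext <;> simp [sg, pt]

lemma sg_swap (i : Fin 2) (u v : Fin 9) (t : ℝ) : sg i v u t = sg i u v (1 - t) := by
  apply Complex.ext <;> simp only [sg] <;> ring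

lemma sg_cont (i : Fin 2) (u v : Fin 9) : Continuous (sg i u v) := by
  have : sg i u v = fun t : ℝ => (((1 - t) * (cx i u : ℝ) + t * (cx i v : ℝ) : ℝ) : ℂ) +
      (((1 - t) * (cy i u : ℝ) + t * (cy i v : ℝ) : ℝ) : ℂ) * Complex.I := by
    funext t; exact Complex.mk_eq_add_mul_I _ _
  rw [this]; fun_prop

lemma pt_inj (i : Fin 2) : Function.Injective (pt i) := by
  intro u v h
  have hx := congrArg Complex.re h
  have hy := congrArg Complex.im h
  simp only [pt, Int.cast_inj] at hx hy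
  revert i u v
  have : ∀ (i : Fin 2) (u v : Fin 9), cx i u = cx i v → cy i u = cy i v → u = v := by
    decide +kernel
  intro i u v _ hx hy
  exact this i u v hx hy

/-- `oz` as a real number -/
lemma oz_real (i : Fin 2) (a b c : Fin 9) : ((oz i a b c : ℤ) : ℝ) =
    ((cx i b : ℝ) - cx i a) * ((cy i c : ℝ) - cy i a) -
      ((cy i b : ℝ) - cy i a) * ((cx i c : ℝ) - cx i a) := by
  simp only [oz]; push_cast; ring

lemma oz_sg {i : Fin 2} {u v a b : Fin 9} {s t : ℝ} (h : sg i u v s = sg i a b t) :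
    (1 - t) * (oz i u v a : ℝ) + t * (oz i u v b : ℝ) = 0 := by
  have hx := congrArg Complex.re h
  have hy := congrArg Complex.im h
  simp only [sg] at hx hy
  rw [oz_real, oz_real]
  linear_combination (-((cx i v : ℝ) - cx i u)) * hy + ((cy i v : ℝ) - cy i u) * hx

lemma sg_inj {i : Fin 2} {u v : Fin 9} (huv : u ≠ v) {s t : ℝ} (h : sg i u v s = sg i u v t) :
    s = t := by
  have hx := congrArg Complex.re h
  have hy := congrArg Complex.im h
  simp only [sg] at hx hy
  by_contra hne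
  have hne' : s - t ≠ 0 := sub_ne_zero.mpr hne
  apply huv
  apply pt_inj i
  apply Complex.ext
  · have : (s - t) * ((cx i u : ℝ) - cx i v) = 0 := by linarith
    rcases mul_eq_zero.mp this with h1 | h1
    · exact absurd h1 hne'
    · simp only [pt]; linarith
  · have : (s - t) * ((cy i u : ℝ) - cy i v) = 0 := by linarith
    rcases mul_eq_zero.mp this with h1 | h1
    · exact absurd h1 hne'
    · simp only [pt]; linarith

lemma oz_self₁ (i : Fin 2) (u v : Fin 9) : oz i u v u = 0 := by simp [oz]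
lemma oz_self₂ (i : Fin 2) (u v : Fin 9) : oz i u v v = 0 := by simp only [oz]; ring

lemma sg_avoid (i : Fin 2) (u v w : Fin 9) (huv : u ≠ v) (t : ℝ) (h0 : 0 < t) (h1 : t < 1) :
    sg i u v t ≠ pt i w := by
  intro h
  by_cases hu : w = u
  · rw [hu, ← sg_zero i u v] at h
    exact h0.ne' (sg_inj huv h)
  by_cases hv : w = v
  · rw [hv, ← sg_one i u v] at h
    exact h1.ne (sg_inj huv h)
  have h2 : sg i u v t = sg i w w 0 := by rw [h, sg_zero]
  have h3 := oz_sg h2
  have h4 : (oz i u v w : ℝ) = 0 := by linarith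
  exact gen i u v w huv hu hv (by exact_mod_cast h4)

/-- two segments of a plane that meet in interior points cross properly -/
lemma cross_sign {i : Fin 2} {u v a b : Fin 9} (huv : u ≠ v) (hab : a ≠ b)
    (h1 : ¬ (u = a ∧ v = b)) (h2 : ¬ (u = b ∧ v = a)) {s t : ℝ}
    (hs0 : 0 < s) (hs1 : s < 1) (ht0 : 0 < t) (ht1 : t < 1)
    (h : sg i u v s = sg i a b t) :
    oz i u v a * oz i u v b < 0 ∧ oz i a b u * oz i a b v < 0 := by
  have o1 := oz_sg h
  have o2 := oz_sg h.symm
  have hua : u ≠ a := by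
    rintro rfl
    rw [oz_self₁, Int.cast_zero, mul_zero, zero_add] at o1
    rcases mul_eq_zero.mp o1 with h3 | h3
    · exact ht0.ne' h3
    · exact gen i u v b huv hab.symm (fun h4 => h1 ⟨rfl, h4.symm⟩) (by exact_mod_cast h3)
  have hub : u ≠ b := by
    rintro rfl
    rw [oz_self₁, Int.cast_zero, mul_zero, add_zero] at o1
    rcases mul_eq_zero.mp o1 with h3 | h3
    · linarith
    · exact gen i u v a huv hab (fun h4 => h2 ⟨rfl, h4.symm⟩) (by exact_mod_cast h3)
  have hva : v ≠ a := by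
    rintro rfl
    rw [oz_self₂, Int.cast_zero, mul_zero, zero_add] at o1
    rcases mul_eq_zero.mp o1 with h3 | h3
    · exact ht0.ne' h3
    · exact gen i u v b huv (Ne.symm hub) hab.symm (by exact_mod_cast h3)
  have hvb : v ≠ b := by
    rintro rfl
    rw [oz_self₂, Int.cast_zero, mul_zero, add_zero] at o1
    rcases mul_eq_zero.mp o1 with h3 | h3
    · linarith
    · exact gen i u v a huv (Ne.symm hua) hab (by exact_mod_cast h3)
  have key : ∀ (x y : ℤ) (r : ℝ), 0 < r → r < 1 → x ≠ 0 → (1 - r) * (x : ℝ) + r * (y : ℝ) = 0 →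
      x * y < 0 := by
    intro x y r hr0 hr1 hx hxy
    have hy : (y : ℝ) = -((1 - r) / r) * x := by field_simp; linarith
    have hxR : (0 : ℝ) < (x : ℝ) ^ 2 := by
      have : (x : ℝ) ≠ 0 := by exact_mod_cast hx
      positivity
    have hp : 0 < (1 - r) / r := div_pos (by linarith) hr0
    have : ((x * y : ℤ) : ℝ) < 0 := by
      push_cast
      rw [hy]
      nlinarith
    exact_mod_cast this
  exact ⟨key _ _ t ht0 ht1 (gen i u v a huv hua.symm hva.symm) o1,
    key _ _ s hs0 hs1 (gen i a b u hab hua hub) o2⟩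

end Pool.Agent.R30.K9
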