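import Mathlib

set_option autoImplicit false

/-! Certificates (mod 2) that van Kampen labels do not exist. -/

namespace Pool.Agent.R30.K9

abbrev Quad := Fin 9 × Fin 9 × Fin 9 × Fin 9

def idx (a b c : Fin 9) : ℕ := (a.val * 9 + b.val) * 9 + c.val

lemma idx_inj {a b c a' b' c' : Fin 9} (h : idx a b c = idx a' b' c') :
    a = a' ∧ b = b' ∧ c = c' := by
  obtain ⟨a, ha⟩ := a
  obtain ⟨b, hb⟩ := b
  obtain ⟨c, hc⟩ := c
  obtain ⟨a', ha'⟩ := a'
  obtain ⟨b', hb'⟩ := b'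
  obtain ⟨c', hc'⟩ := c'
  simp only [idx, Fin.mk.injEq] at h ⊢
  omega

/-- value of a mask -/
def ev (m : Fin 9 → Fin 9 → Fin 9 → ZMod 2) (k : ℕ) : ZMod 2 :=
  ∑ a, ∑ b, ∑ c, if k.testBit (idx a b c) then m a b c else 0

lemma ev_zero (m : Fin 9 → Fin 9 → Fin 9 → ZMod 2) : ev m 0 = 0 := by
  simp [ev]

lemma ev_xor (m : Fin 9 → Fin 9 → Fin 9 → ZMod 2) (k l : ℕ) :
    ev m (k ^^^ l) = ev m k + ev m l := by
  simp only [ev, ← Finset.sum_add_distrib]
  refine Finset.sum_congr rfl fun a _ => Finset.sum_congr rfl fun b _ =>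
    Finset.sum_congr rfl fun c _ => ?_
  rw [Nat.testBit_xor]
  have two : m a b c + m a b c = 0 := CharTwo.add_self_eq_zero _
  cases k.testBit (idx a b c) <;> cases l.testBit (idx a b c) <;> simp [two]

lemma ev_one (m : Fin 9 → Fin 9 → Fin 9 → ZMod 2) (a b c : Fin 9) :
    ev m (2 ^ (idx a b c)) = m a b c := by
  have h : ∀ a' b' c' : Fin 9, (2 ^ (idx a b c)).testBit (idx a' b' c') =
      decide (a = a' ∧ b = b' ∧ c = c') := by
    intro a' b' c'
    rw [Nat.testBit_two_pow]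
    by_cases h : a = a' ∧ b = b' ∧ c = c'
    · obtain ⟨rfl, rfl, rfl⟩ := h; simp
    · have : idx a b c ≠ idx a' b' c' := fun he => h (idx_inj he)
      simp [h, this]
  unfold ev
  rw [Finset.sum_eq_single a, Finset.sum_eq_single b, Finset.sum_eq_single c]
  · simp [h]
  · intro c' _ hc'
    rw [h]; simp [hc'.symm]
  · intro h'; exact absurd (Finset.mem_univ _) h'
  · intro b' _ hb'
    refine Finset.sum_eq_zero fun c' _ => ?_
    rw [h]; simp [hb'.symm]
  · intro h'; exact absurd (Finset.mem_univ _) h'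
  · intro a' _ ha'
    refine Finset.sum_eq_zero fun b' _ => Finset.sum_eq_zero fun c' _ => ?_
    rw [h]; simp [ha'.symm]
  · intro h'; exact absurd (Finset.mem_univ _) h'

/-- the interleaving bit -/
def bet (q : Quad) : Bool :=
  xor (decide (q.1 < q.2.2.1 ∧ q.2.2.1 < q.2.1)) (decide (q.1 < q.2.2.2 ∧ q.2.2.2 < q.2.1))

def msk (q : Quad) : ℕ :=
  2 ^ (idx q.1 q.2.1 q.2.2.1) ^^^ 2 ^ (idx q.1 q.2.1 q.2.2.2) ^^^
    2 ^ (idx q.2.2.1 q.2.2.2 q.1) ^^^ 2 ^ (idx q.2.2.1 q.2.2.2 q.2.1)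

def mskL : List Quad → ℕ
  | [] => 0
  | q :: l => msk q ^^^ mskL l

def betL : List Quad → Bool
  | [] => false
  | q :: l => xor (bet q) (betL l)

def shape (q : Quad) : Bool :=
  decide (q.1 < q.2.1) && decide (q.2.2.1 < q.2.2.2) && decide (q.1 ≠ q.2.2.1) &&
    decide (q.1 ≠ q.2.2.2) && decide (q.2.1 ≠ q.2.2.1) && decide (q.2.1 ≠ q.2.2.2)

/-- a list of independent pairs whose relations add up to `1 = 0` -/
def valid (l : List Quad) : Bool := l.all shape && (mskL l == 0) && betL l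

def b2z (b : Bool) : ZMod 2 := if b then 1 else 0

lemma b2z_xor (x y : Bool) : b2z (xor x y) = b2z x + b2z y := by
  cases x <;> cases y <;> simp [b2z]; decide

/-- the relations of labels -/
def Rel (E : Fin 9 → Fin 9 → Prop) (m : Fin 9 → Fin 9 → Fin 9 → ZMod 2) : Prop :=
  ∀ a b c d, a < b → c < d → E a b → E c d → a ≠ c → a ≠ d → b ≠ c → b ≠ d →
    b2z (bet (a, b, c, d)) = m a b c + m a b d + m c d a + m c d b

lemma sum_rel (E : Fin 9 → Fin 9 → Prop) (m : Fin 9 → Fin 9 → Fin 9 → ZMod 2) (hm : Rel E m)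
    (l : List Quad) (hs : l.all shape = true)
    (hE : ∀ q ∈ l, E q.1 q.2.1 ∧ E q.2.2.1 q.2.2.2) :
    b2z (betL l) = ev m (mskL l) := by
  induction l with
  | nil => simp [betL, mskL, ev_zero, b2z]
  | cons q l ih =>
    simp only [List.all_cons, Bool.and_eq_true] at hs
    have ih' := ih hs.2 (fun q hq => hE q (List.mem_cons_of_mem _ hq))
    have hq := hE q List.mem_cons_self
    obtain ⟨a, b, c, d⟩ := q
    have h := hs.1
    simp only [shape, Bool.and_eq_true, decide_eq_true_eq] at h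
    obtain ⟨⟨⟨⟨⟨h1, h2⟩, h3⟩, h4⟩, h5⟩, h6⟩ := h
    have hr := hm a b c d h1 h2 hq.1 hq.2 h3 h4 h5 h6
    simp only [betL, mskL, b2z_xor, ev_xor, ih', hr, msk, ev_one]

theorem no_labels (E : Fin 9 → Fin 9 → Prop) (m : Fin 9 → Fin 9 → Fin 9 → ZMod 2) (hm : Rel E m)
    (l : List Quad) (hv : valid l = true)
    (hE : ∀ q ∈ l, E q.1 q.2.1 ∧ E q.2.2.1 q.2.2.2) : False := by
  simp only [valid, Bool.and_eq_true, beq_iff_eq] at hv
  have h := sum_rel E m hm l hv.1.1 hE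
  rw [hv.1.2, hv.2, ev_zero] at h
  simp [b2z] at h

end Pool.Agent.R30.K9
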