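import Pool.Agent.R537.LR.Stm

/-!
# LRA: the pattern of the lists (piece PT of project LR, MP_d82c50_lc)
-/

set_option autoImplicit false

namespace Pool.Agent.NPC.R537LR.PTaux

open Pool.Agent.NPC Pool.Agent.NPC.ER Pool.Agent.NPC.R537LR

def tRn (a : RName) : Option (Fin 3) :=
  if a = (0, 0) then some 0 else if a = (0, 1) then some 1 else if a = (0, 2) then some 2 else none

def tCn (c : Col) : Option (Fin 3) :=
  if c.1 = 0 then some 0 else if c.1 = 1 then some 1 else if c.1 = 2 then some 2 else none

noncomputable def rvn (a : RName) (s : Fin 3) : Option ℝ :=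
  ((rowv a).getD s none).map fun q => (q : ℝ) / 8

noncomputable def cvn (c : Col) (s : Fin 3) : Option ℝ :=
  (c.2.1.getD s none).map fun q => (q : ℝ) / 8

def zn (a : RName) (c : Col) : Bool := decide (a.1 ≠ 0 ∧ c.1 = 3 ∧ a ∈ c.2.2)

theorem mem_rows_iff (n : ℕ) (a : RName) : a ∈ rowsL n ↔ a = (0, 0) ∨ a = (0, 1) ∨ a = (0, 2) ∨
    a = (1, 0) ∨ a = (2, 0) ∨
    ∃ v, v < n ∧ (a = (3, v) ∨ a = (4, v) ∨ a = (5, v) ∨ a = (6, v) ∨ a = (7, v)) := by
  unfold rowsL
  simp only [List.mem_append, List.mem_cons, List.mem_flatMap, List.mem_range, List.not_mem_nil,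
    or_false, or_assoc]

theorem rows_nodup (n : ℕ) : (rowsL n).Nodup := by
  unfold rowsL
  rw [List.nodup_append]
  refine ⟨by decide, ?_, ?_⟩
  · rw [List.nodup_flatMap]
    refine ⟨?_, ?_⟩
    · intro v _
      simp
    · refine (List.nodup_range).imp ?_
      intro u v huv
      simp only [Function.onFun, List.Disjoint]
      intro a ha hb
      simp only [List.mem_cons, List.not_mem_nil, or_false] at ha hb
      apply huv
      have h1 : a.2 = u := by rcases ha with h | h | h | h | h <;> rw [h]
      have h2 : a.2 = v := by rcases hb with h | h | h | h | h <;> rw [h]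
      rw [← h1, h2]
  · intro a ha b hb
    simp only [List.mem_cons, List.not_mem_nil, or_false] at ha
    simp only [List.mem_flatMap, List.mem_range, List.mem_cons, List.not_mem_nil, or_false] at hb
    obtain ⟨v, -, hb⟩ := hb
    have h1 : a.1 ≤ 2 := by rcases ha with h | h | h | h | h <;> rw [h] <;> simp
    have h2 : 3 ≤ b.1 := by rcases hb with h | h | h | h | h <;> rw [h] <;> simp
    intro hab
    rw [hab] at h1
    omega

theorem tRn_iff (a : RName) (i : Fin 3) : tRn a = some i ↔ a = (0, (i : ℕ)) := by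
  unfold tRn
  constructor
  · intro h
    split_ifs at h with h1 h2 h3
    · rw [Option.some_inj] at h
      subst h
      exact h1
    · rw [Option.some_inj] at h
      subst h
      exact h2
    · rw [Option.some_inj] at h
      subst h
      exact h3
  · intro h
    subst h
    fin_cases i <;> simp

theorem tRn_none (n : ℕ) (a : RName) (ha : a ∈ rowsL n) : tRn a = none ↔ a.1 ≠ 0 := by
  rw [mem_rows_iff] at ha
  unfold tRn
  rcases ha with h | h | h | h | h | ⟨v, hv, h | h | h | h | h⟩ <;> subst h <;> simp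

theorem rvn_anchor (i s : Fin 3) : rvn (0, (i : ℕ)) s = some (if i = s then 1 else 0) := by
  unfold rvn rowv
  fin_cases i <;> fin_cases s <;> simp

theorem rvn3 (v : ℕ) : rvn (3, v) 0 = none ∧ rvn (3, v) 1 = some 1 ∧ rvn (3, v) 2 = some 0 := by
  unfold rvn rowv
  simp

theorem rvn4 (v : ℕ) : rvn (4, v) 0 = none ∧ rvn (4, v) 1 = some 0 ∧ rvn (4, v) 2 = some 1 := by
  unfold rvn rowv
  simp

theorem rvn5 (v : ℕ) : rvn (5, v) 0 = none ∧ rvn (5, v) 1 = some (1 / 2) ∧
    rvn (5, v) 2 = some (1 / 2) := by
  unfold rvn rowv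
  simp
  norm_num

theorem rvn6 (v : ℕ) : rvn (6, v) 0 = some 0 ∧ rvn (6, v) 1 = some 1 ∧ rvn (6, v) 2 = none := by
  unfold rvn rowv
  simp

theorem rvn7 (v : ℕ) : rvn (7, v) 0 = some 1 ∧ rvn (7, v) 1 = some 0 ∧ rvn (7, v) 2 = none := by
  unfold rvn rowv
  simp

theorem rvn1 : rvn (1, 0) 0 = some 1 ∧ rvn (1, 0) 1 = some 1 ∧ rvn (1, 0) 2 = some 0 := by
  unfold rvn rowv
  simp

theorem rvn2 : rvn (2, 0) 0 = some 0 ∧ rvn (2, 0) 1 = some 1 ∧ rvn (2, 0) 2 = some (-1) := by
  unfold rvn rowv
  simp

theorem rvn_le (n : ℕ) (a : RName) (ha : a ∈ rowsL n) (s : Fin 3) (x : ℝ)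
    (h : rvn a s = some x) : |x| ≤ 1 := by
  rw [mem_rows_iff] at ha
  have key : ∀ (o : Option ℝ) (y : ℝ), o = some y → |y| ≤ 1 → o = some x → |x| ≤ 1 := by
    intro o y h1 h2 h3
    rw [h1, Option.some_inj] at h3
    rw [← h3]
    exact h2
  have key0 : ∀ (o : Option ℝ), o = none → o = some x → |x| ≤ 1 := by
    intro o h1 h3
    rw [h1] at h3
    exact absurd h3 (by simp)
  rcases ha with h' | h' | h' | h' | h' | ⟨v, hv, h' | h' | h' | h' | h'⟩ <;> subst h'
  · exact key _ _ (rvn_anchor 0 s) (by split_ifs <;> simp) h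
  · exact key _ _ (rvn_anchor 1 s) (by split_ifs <;> simp) h
  · exact key _ _ (rvn_anchor 2 s) (by split_ifs <;> simp) h
  · fin_cases s
    · exact key _ _ rvn1.1 (by simp) h
    · exact key _ _ rvn1.2.1 (by simp) h
    · exact key _ _ rvn1.2.2 (by simp) h
  · fin_cases s
    · exact key _ _ rvn2.1 (by simp) h
    · exact key _ _ rvn2.2.1 (by simp) h
    · exact key _ _ rvn2.2.2 (by simp) h
  · fin_cases s
    · exact key0 _ (rvn3 v).1 h
    · exact key _ _ (rvn3 v).2.1 (by simp) h
    · exact key _ _ (rvn3 v).2.2 (by simp) h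
  · fin_cases s
    · exact key0 _ (rvn4 v).1 h
    · exact key _ _ (rvn4 v).2.1 (by simp) h
    · exact key _ _ (rvn4 v).2.2 (by simp) h
  · fin_cases s
    · exact key0 _ (rvn5 v).1 h
    · exact key _ _ (rvn5 v).2.1 (by norm_num [abs_le]) h
    · exact key _ _ (rvn5 v).2.2 (by norm_num [abs_le]) h
  · fin_cases s
    · exact key _ _ (rvn6 v).1 (by simp) h
    · exact key _ _ (rvn6 v).2.1 (by simp) h
    · exact key0 _ (rvn6 v).2.2 h
  · fin_cases s
    · exact key _ _ (rvn7 v).1 (by simp) h
    · exact key _ _ (rvn7 v).2.1 (by simp) h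
    · exact key0 _ (rvn7 v).2.2 h

/-! ### Columns -/

def T1 (v : ℕ) : Col := (3, [some 8, none, none], [(2, 0), (3, v), (4, v), (5, v)])

def T2 (v : ℕ) : Col := (3, [none, none, some 8], [(1, 0), (6, v), (7, v)])

def T3 (v : ℕ) : Col := (3, [some 8, none, some 8], [(3, v), (6, v)])

def oc (y : ℕ) : Col := (4, [some 8, some 0, some 0], [(3, y)])

def anc (j : Fin 3) : Col :=
  ((j : ℕ), [some (if j = 0 then 8 else 0), some (if j = 1 then 8 else 0),
    some (if j = 2 then 8 else 0)], [])

def Xl (n : ℕ) (G : List Gate) : List Col := (List.range n).flatMap colV ++ G.map colG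

theorem cols_eq (n : ℕ) (G : List Gate) (y : ℕ) :
    colsL1 n G y = [anc 0, anc 1, anc 2] ++ (Xl n G ++ [oc y]) := by
  unfold colsL1 colsL Xl colA anc oc
  simp

/-- good ordinary columns -/
def GC (n : ℕ) (c : Col) : Prop :=
  c.1 = 3 ∧ (∀ s x, cvn c s = some x → |x| ≤ 1) ∧
    ∀ s, cvn c s = none → ∃ a ∈ rowsL n, a.1 ≠ 0 ∧ a ∈ c.2.2 ∧ rvn a s = some 1 ∧
      ∀ s', s' ≠ s → cvn c s' = none → rvn a s' = some 0

/-- criterion: first coordinate known, the others not -/
theorem gc_A (n : ℕ) (zs : List RName) (i j : ℕ) (hi : i < n) (hj : j < n)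
    (h1 : ((3, i) : RName) ∈ zs) (h2 : ((4, j) : RName) ∈ zs) :
    GC n (3, [some 8, none, none], zs) := by
  have e0 : cvn (3, [some 8, none, none], zs) 0 = some 1 := by simp [cvn]
  have e1 : cvn (3, [some 8, none, none], zs) 1 = none := by simp [cvn]
  have e2 : cvn (3, [some 8, none, none], zs) 2 = none := by simp [cvn]
  refine ⟨rfl, ?_, ?_⟩
  · intro s x hx
    fin_cases s
    · have hx' : cvn (3, [some 8, none, none], zs) 0 = some x := hx
      rw [e0, Option.some_inj] at hx'
      rw [← hx']
      simp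
    · have hx' : cvn (3, [some 8, none, none], zs) 1 = some x := hx
      rw [e1] at hx'
      exact absurd hx' (by simp)
    · have hx' : cvn (3, [some 8, none, none], zs) 2 = some x := hx
      rw [e2] at hx'
      exact absurd hx' (by simp)
  · intro s hs
    fin_cases s
    · have hs' : cvn (3, [some 8, none, none], zs) 0 = none := hs
      rw [e0] at hs'
      exact absurd hs' (by simp)
    · refine ⟨(3, i), (mem_rows_iff n _).2 ?_, by simp, h1, (rvn3 i).2.1, ?_⟩
      · right; right; right; right; right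
        exact ⟨i, hi, Or.inl rfl⟩
      · intro s' hs' hn
        fin_cases s'
        · have hn' : cvn (3, [some 8, none, none], zs) 0 = none := hn
          rw [e0] at hn'
          exact absurd hn' (by simp)
        · exact absurd rfl hs'
        · exact (rvn3 i).2.2
    · refine ⟨(4, j), (mem_rows_iff n _).2 ?_, by simp, h2, (rvn4 j).2.2, ?_⟩
      · right; right; right; right; right
        exact ⟨j, hj, Or.inr (Or.inl rfl)⟩
      · intro s' hs' hn
        fin_cases s'
        · have hn' : cvn (3, [some 8, none, none], zs) 0 = none := hn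
          rw [e0] at hn'
          exact absurd hn' (by simp)
        · exact (rvn4 j).2.1
        · exact absurd rfl hs'

theorem gc_B (n : ℕ) (zs : List RName) (i k : ℕ) (hi : i < n) (hk : k < n)
    (h1 : ((7, i) : RName) ∈ zs) (h2 : ((6, k) : RName) ∈ zs) :
    GC n (3, [none, none, some 8], zs) := by
  have e0 : cvn (3, [none, none, some 8], zs) 0 = none := by simp [cvn]
  have e1 : cvn (3, [none, none, some 8], zs) 1 = none := by simp [cvn]
  have e2 : cvn (3, [none, none, some 8], zs) 2 = some 1 := by simp [cvn]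
  refine ⟨rfl, ?_, ?_⟩
  · intro s x hx
    fin_cases s
    · have hx' : cvn (3, [none, none, some 8], zs) 0 = some x := hx
      rw [e0] at hx'
      exact absurd hx' (by simp)
    · have hx' : cvn (3, [none, none, some 8], zs) 1 = some x := hx
      rw [e1] at hx'
      exact absurd hx' (by simp)
    · have hx' : cvn (3, [none, none, some 8], zs) 2 = some x := hx
      rw [e2, Option.some_inj] at hx'
      rw [← hx']
      simp
  · intro s hs
    fin_cases s
    · refine ⟨(7, i), (mem_rows_iff n _).2 ?_, by simp, h1, (rvn7 i).1, ?_⟩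
      · right; right; right; right; right
        exact ⟨i, hi, Or.inr (Or.inr (Or.inr (Or.inr rfl)))⟩
      · intro s' hs' hn
        fin_cases s'
        · exact absurd rfl hs'
        · exact (rvn7 i).2.1
        · have hn' : cvn (3, [none, none, some 8], zs) 2 = none := hn
          rw [e2] at hn'
          exact absurd hn' (by simp)
    · refine ⟨(6, k), (mem_rows_iff n _).2 ?_, by simp, h2, (rvn6 k).2.1, ?_⟩
      · right; right; right; right; right
        exact ⟨k, hk, Or.inr (Or.inr (Or.inr (Or.inl rfl)))⟩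
      · intro s' hs' hn
        fin_cases s'
        · exact (rvn6 k).1
        · exact absurd rfl hs'
        · have hn' : cvn (3, [none, none, some 8], zs) 2 = none := hn
          rw [e2] at hn'
          exact absurd hn' (by simp)
    · have hs' : cvn (3, [none, none, some 8], zs) 2 = none := hs
      rw [e2] at hs'
      exact absurd hs' (by simp)

theorem gc_T3 (n v : ℕ) (hv : v < n) : GC n (T3 v) := by
  have e0 : cvn (T3 v) 0 = some 1 := by simp [cvn, T3]
  have e1 : cvn (T3 v) 1 = none := by simp [cvn, T3]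
  have e2 : cvn (T3 v) 2 = some 1 := by simp [cvn, T3]
  refine ⟨rfl, ?_, ?_⟩
  · intro s x hx
    fin_cases s
    · have hx' : cvn (T3 v) 0 = some x := hx
      rw [e0, Option.some_inj] at hx'
      rw [← hx']
      simp
    · have hx' : cvn (T3 v) 1 = some x := hx
      rw [e1] at hx'
      exact absurd hx' (by simp)
    · have hx' : cvn (T3 v) 2 = some x := hx
      rw [e2, Option.some_inj] at hx'
      rw [← hx']
      simp
  · intro s hs
    fin_cases s
    · have hs' : cvn (T3 v) 0 = none := hs
      rw [e0] at hs'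
      exact absurd hs' (by simp)
    · refine ⟨(3, v), (mem_rows_iff n _).2 ?_, by simp, by simp [T3], (rvn3 v).2.1, ?_⟩
      · right; right; right; right; right
        exact ⟨v, hv, Or.inl rfl⟩
      · intro s' hs' hn
        fin_cases s'
        · have hn' : cvn (T3 v) 0 = none := hn
          rw [e0] at hn'
          exact absurd hn' (by simp)
        · exact absurd rfl hs'
        · have hn' : cvn (T3 v) 2 = none := hn
          rw [e2] at hn'
          exact absurd hn' (by simp)
    · have hs' : cvn (T3 v) 2 = none := hs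
      rw [e2] at hs'
      exact absurd hs' (by simp)

theorem gc_known (n : ℕ) (z : ℤ) (hz : |z| ≤ 8) (zs : List RName) :
    GC n (3, [some 8, some z, some 0], zs) := by
  have hz' : |(z : ℝ) / 8| ≤ 1 := by
    rw [abs_div, abs_of_pos (by norm_num : (0 : ℝ) < 8), div_le_one (by norm_num)]
    exact_mod_cast hz
  have e0 : cvn (3, [some 8, some z, some 0], zs) 0 = some 1 := by simp [cvn]
  have e1 : cvn (3, [some 8, some z, some 0], zs) 1 = some ((z : ℝ) / 8) := by simp [cvn]
  have e2 : cvn (3, [some 8, some z, some 0], zs) 2 = some 0 := by simp [cvn]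
  refine ⟨rfl, ?_, ?_⟩
  · intro s x hx
    fin_cases s
    · have hx' : cvn (3, [some 8, some z, some 0], zs) 0 = some x := hx
      rw [e0, Option.some_inj] at hx'
      rw [← hx']
      simp
    · have hx' : cvn (3, [some 8, some z, some 0], zs) 1 = some x := hx
      rw [e1, Option.some_inj] at hx'
      rw [← hx']
      exact hz'
    · have hx' : cvn (3, [some 8, some z, some 0], zs) 2 = some x := hx
      rw [e2, Option.some_inj] at hx'
      rw [← hx']
      simp
  · intro s hs
    fin_cases s
    · have hs' : cvn (3, [some 8, some z, some 0], zs) 0 = none := hs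
      rw [e0] at hs'
      exact absurd hs' (by simp)
    · have hs' : cvn (3, [some 8, some z, some 0], zs) 1 = none := hs
      rw [e1] at hs'
      exact absurd hs' (by simp)
    · have hs' : cvn (3, [some 8, some z, some 0], zs) 2 = none := hs
      rw [e2] at hs'
      exact absurd hs' (by simp)

theorem gc_X (n : ℕ) (G : List Gate) (hG : ∀ g ∈ G, GLt n g)
    (hz : ∀ g ∈ G, g.1 = 1 → |g.2.2.2.2| ≤ 8) (c : Col) (hc : c ∈ Xl n G) : GC n c := by
  unfold Xl at hc
  rw [List.mem_append] at hc
  rcases hc with hc | hc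
  · rw [List.mem_flatMap] at hc
    obtain ⟨v, hv, hc⟩ := hc
    rw [List.mem_range] at hv
    unfold colV at hc
    simp only [List.mem_cons, List.not_mem_nil, or_false] at hc
    rcases hc with rfl | rfl | rfl
    · exact gc_A n _ v v hv hv (by simp) (by simp)
    · exact gc_B n _ v v hv hv (by simp) (by simp)
    · exact gc_T3 n v hv
  · rw [List.mem_map] at hc
    obtain ⟨g, hg, rfl⟩ := hc
    have h1 := hG g hg
    unfold colG
    split_ifs with g0 g1 g2
    · exact gc_known n 0 (by simp) _
    · exact gc_known n _ (by rw [abs_neg]; exact hz g hg g1) _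
    · exact gc_A n _ _ _ h1.1 h1.2.1 (by simp) (by simp)
    · exact gc_B n _ _ _ h1.1 h1.2.2 (by simp) (by simp)

theorem mem_T1 (n : ℕ) (G : List Gate) (v : ℕ) (hv : v < n) : T1 v ∈ Xl n G := by
  unfold Xl
  rw [List.mem_append]
  left
  rw [List.mem_flatMap]
  exact ⟨v, List.mem_range.2 hv, by simp [colV, T1]⟩

theorem mem_T2 (n : ℕ) (G : List Gate) (v : ℕ) (hv : v < n) : T2 v ∈ Xl n G := by
  unfold Xl
  rw [List.mem_append]
  left
  rw [List.mem_flatMap]
  exact ⟨v, List.mem_range.2 hv, by simp [colV, T2]⟩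

theorem tCn_anc (j : Fin 3) : tCn (anc j) = some j := by
  fin_cases j <;> simp [tCn, anc]

theorem cvn_anc (j s : Fin 3) : cvn (anc j) s = some (if j = s then 1 else 0) := by
  fin_cases j <;> fin_cases s <;> simp [cvn, anc]

theorem tCn_three (c : Col) (h : c.1 = 3) : tCn c = none := by
  simp [tCn, h]

theorem tCn_four (c : Col) (h : c.1 = 4) : tCn c = none := by
  simp [tCn, h]

theorem len (n : ℕ) (G : List Gate) (y : ℕ) :
    (colsL1 n G y).length = 3 + ((Xl n G).length + 1) := by
  rw [cols_eq]
  simp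
  omega

theorem gen {α : Type} (a0 a1 a2 o : α) (X L : List α) (hL : L = [a0, a1, a2] ++ (X ++ [o]))
    (c : Fin L.length) :
    ((c : ℕ) = 0 ∧ L.get c = a0) ∨ ((c : ℕ) = 1 ∧ L.get c = a1) ∨ ((c : ℕ) = 2 ∧ L.get c = a2) ∨
      (3 ≤ (c : ℕ) ∧ (c : ℕ) < 3 + X.length ∧ L.get c ∈ X) ∨
      ((c : ℕ) = 3 + X.length ∧ L.get c = o) := by
  subst hL
  obtain ⟨i, hi⟩ := c
  simp only [List.get_eq_getElem]
  match i, hi with
  | 0, hi => left; simp
  | 1, hi => right; left; simp
  | 2, hi => right; right; left; simp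
  | j + 3, hi =>
    right; right; right
    have h1 : ([a0, a1, a2] ++ (X ++ [o]))[j + 3]'hi = (X ++ [o])[j]'(by
        simp at hi ⊢
        omega) := by simp
    rw [h1]
    by_cases hj : j < X.length
    · left
      refine ⟨by omega, by omega, ?_⟩
      rw [List.getElem_append_left hj]
      exact List.getElem_mem _
    · right
      have hj' : j = X.length := by
        simp at hi
        omega
      subst hj'
      refine ⟨by omega, ?_⟩
      simp

theorem gen_mem {α : Type} (a0 a1 a2 o : α) (X L : List α) (hL : L = [a0, a1, a2] ++ (X ++ [o]))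
    (x : α) (hx : x ∈ X) :
    ∃ c : Fin L.length, 3 ≤ (c : ℕ) ∧ (c : ℕ) < 3 + X.length ∧ L.get c = x := by
  subst hL
  obtain ⟨j, hj, rfl⟩ := List.mem_iff_getElem.1 hx
  refine ⟨⟨j + 3, by simp; omega⟩, by simp, by simp; omega, ?_⟩
  simp [List.get_eq_getElem, List.getElem_append_left hj]

theorem ctr_name (n : ℕ) (G : List Gate) (a : RName) (ha : a ∈ rowsL n) (h0 : a.1 ≠ 0)
    (s : Fin 3) (h : rvn a s = none) :
    (∀ s', s' ≠ s → rvn a s' ≠ none) ∧ ∃ c ∈ Xl n G, a ∈ c.2.2 ∧ cvn c s = some 1 := by
  rw [mem_rows_iff] at ha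
  have key : ∀ (x : ℝ) (t : Fin 3), rvn a t = some x → t = s → False := by
    intro x t h1 h2
    rw [h2, h] at h1
    exact absurd h1 (by simp)
  rcases ha with h' | h' | h' | h' | h' | ⟨v, hv, h' | h' | h' | h' | h'⟩ <;> subst h'
  · exact absurd rfl h0
  · exact absurd rfl h0
  · exact absurd rfl h0
  · fin_cases s
    · exact absurd rvn1.1 (fun h1 => key _ 0 h1 rfl)
    · exact absurd rvn1.2.1 (fun h1 => key _ 1 h1 rfl)
    · exact absurd rvn1.2.2 (fun h1 => key _ 2 h1 rfl)
  · fin_cases s
    · exact absurd rvn2.1 (fun h1 => key _ 0 h1 rfl)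
    · exact absurd rvn2.2.1 (fun h1 => key _ 1 h1 rfl)
    · exact absurd rvn2.2.2 (fun h1 => key _ 2 h1 rfl)
  · fin_cases s
    · refine ⟨?_, T1 v, mem_T1 n G v hv, by simp [T1], by simp [cvn, T1]⟩
      intro s' hs'
      fin_cases s'
      · exact absurd rfl hs'
      · show rvn (3, v) 1 ≠ none
        rw [(rvn3 v).2.1]
        simp
      · show rvn (3, v) 2 ≠ none
        rw [(rvn3 v).2.2]
        simp
    · exact absurd (rvn3 v).2.1 (fun h1 => key _ 1 h1 rfl)
    · exact absurd (rvn3 v).2.2 (fun h1 => key _ 2 h1 rfl)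
  · fin_cases s
    · refine ⟨?_, T1 v, mem_T1 n G v hv, by simp [T1], by simp [cvn, T1]⟩
      intro s' hs'
      fin_cases s'
      · exact absurd rfl hs'
      · show rvn (4, v) 1 ≠ none
        rw [(rvn4 v).2.1]
        simp
      · show rvn (4, v) 2 ≠ none
        rw [(rvn4 v).2.2]
        simp
    · exact absurd (rvn4 v).2.1 (fun h1 => key _ 1 h1 rfl)
    · exact absurd (rvn4 v).2.2 (fun h1 => key _ 2 h1 rfl)
  · fin_cases s
    · refine ⟨?_, T1 v, mem_T1 n G v hv, by simp [T1], by simp [cvn, T1]⟩
      intro s' hs'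
      fin_cases s'
      · exact absurd rfl hs'
      · show rvn (5, v) 1 ≠ none
        rw [(rvn5 v).2.1]
        simp
      · show rvn (5, v) 2 ≠ none
        rw [(rvn5 v).2.2]
        simp
    · exact absurd (rvn5 v).2.1 (fun h1 => key _ 1 h1 rfl)
    · exact absurd (rvn5 v).2.2 (fun h1 => key _ 2 h1 rfl)
  · fin_cases s
    · exact absurd (rvn6 v).1 (fun h1 => key _ 0 h1 rfl)
    · exact absurd (rvn6 v).2.1 (fun h1 => key _ 1 h1 rfl)
    · refine ⟨?_, T2 v, mem_T2 n G v hv, by simp [T2], by simp [cvn, T2]⟩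
      intro s' hs'
      fin_cases s'
      · show rvn (6, v) 0 ≠ none
        rw [(rvn6 v).1]
        simp
      · show rvn (6, v) 1 ≠ none
        rw [(rvn6 v).2.1]
        simp
      · exact absurd rfl hs'
  · fin_cases s
    · exact absurd (rvn7 v).1 (fun h1 => key _ 0 h1 rfl)
    · exact absurd (rvn7 v).2.1 (fun h1 => key _ 1 h1 rfl)
    · refine ⟨?_, T2 v, mem_T2 n G v hv, by simp [T2], by simp [cvn, T2]⟩
      intro s' hs'
      fin_cases s'
      · show rvn (7, v) 0 ≠ none
        rw [(rvn7 v).1]
        simp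
      · show rvn (7, v) 1 ≠ none
        rw [(rvn7 v).2.1]
        simp
      · exact absurd rfl hs'

end Pool.Agent.NPC.R537LR.PTaux

namespace Pool.Agent.NPC.R537LR

open Pool.Agent.NPC Pool.Agent.NPC.ER PTaux

theorem t_PT : S_PT := by
  intro n G y hG hz hy
  have hinj : Function.Injective (rowsL n).get := List.nodup_iff_injective_get.1 (rows_nodup n)
  have hanc : ∀ i : Fin 3, ((0, (i : ℕ)) : RName) ∈ rowsL n := by
    intro i
    rw [mem_rows_iff]
    fin_cases i <;> simp
  have hexr : ∀ a ∈ rowsL n, ∃ r, (rowsL n).get r = a := fun a ha => List.mem_iff_get.1 ha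
  choose ar har using fun i : Fin 3 => hexr _ (hanc i)
  obtain ⟨ro, hro⟩ := hexr (3, y) ((mem_rows_iff n _).2 (by
    right; right; right; right; right
    exact ⟨y, hy, Or.inl rfl⟩))
  have hrow : ∀ r, (rowsL n).get r ∈ rowsL n := fun r => List.get_mem _ _
  have hlen := len n G y
  have hgen := gen (anc 0) (anc 1) (anc 2) (oc y) (Xl n G) (colsL1 n G y) (cols_eq n G y)
  have hgm := gen_mem (anc 0) (anc 1) (anc 2) (oc y) (Xl n G) (colsL1 n G y) (cols_eq n G y)
  let ac : Fin 3 → Fin (colsL1 n G y).length := fun j => ⟨j, by omega⟩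
  let co : Fin (colsL1 n G y).length := ⟨3 + (Xl n G).length, by omega⟩
  have hacv : ∀ j, ((ac j : Fin _) : ℕ) = j := fun j => rfl
  have hcov : (co : ℕ) = 3 + (Xl n G).length := rfl
  have hacco : ∀ j, ac j ≠ co := by
    intro j h
    have := congrArg Fin.val h
    rw [hacv, hcov] at this
    omega
  have hac : ∀ j, (colsL1 n G y).get (ac j) = anc j := by
    intro j
    have h1 := hgen (ac j)
    rw [hacv] at h1
    fin_cases j
    · rcases h1 with h | h | h | h | h
      · exact h.2
      all_goals (exfalso; have := h.1; simp at this; try omega)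
    · rcases h1 with h | h | h | h | h
      · exfalso; have := h.1; simp at this
      · exact h.2
      all_goals (exfalso; have := h.1; simp at this; try omega)
    · rcases h1 with h | h | h | h | h
      · exfalso; have := h.1; simp at this
      · exfalso; have := h.1; simp at this
      · exact h.2
      all_goals (exfalso; have := h.1; simp at this; try omega)
  have hco : (colsL1 n G y).get co = oc y := by
    have h1 := hgen co
    rw [hcov] at h1
    rcases h1 with h | h | h | h | h
    · omega
    · omega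
    · omega
    · omega
    · exact h.2
  have hcol : ∀ c, (∃ j, c = ac j) ∨ ((colsL1 n G y).get c ∈ Xl n G ∧ c ≠ co ∧ ∀ j, c ≠ ac j) ∨
      c = co := by
    intro c
    rcases hgen c with h | h | h | h | h
    · left; exact ⟨0, Fin.ext h.1⟩
    · left; exact ⟨1, Fin.ext h.1⟩
    · left; exact ⟨2, Fin.ext h.1⟩
    · right; left
      refine ⟨h.2.2, ?_, ?_⟩
      · intro h1
        rw [h1, hcov] at h
        omega
      · intro j h1
        rw [h1, hacv] at h
        omega
    · right; right
      exact Fin.ext h.1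
  have hacinj : ∀ i j, ac i = ac j → i = j := by
    intro i j h
    have h' := congrArg Fin.val h
    rw [hacv, hacv] at h'
    exact Fin.ext h'
  have hGC : ∀ c ∈ Xl n G, GC n c := gc_X n G hG hz
  let P : Pt (Fin (rowsL n).length) (Fin (colsL1 n G y).length) :=
    { tR := fun r => tRn ((rowsL n).get r)
      tC := fun c => tCn ((colsL1 n G y).get c)
      ar := ar
      ac := ac
      ro := ro
      co := co
      rv := fun r => rvn ((rowsL n).get r)
      cv := fun c => cvn ((colsL1 n G y).get c)
      z := fun r c => zn ((rowsL n).get r) ((colsL1 n G y).get c) }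
  have htR : ∀ r i, P.tR r = some i ↔ r = P.ar i := by
    intro r i
    show tRn ((rowsL n).get r) = some i ↔ r = ar i
    rw [tRn_iff, ← har i]
    exact hinj.eq_iff
  have htC : ∀ c j, P.tC c = some j ↔ c = P.ac j := by
    intro c j
    show tCn ((colsL1 n G y).get c) = some j ↔ c = ac j
    rcases hcol c with ⟨i, rfl⟩ | ⟨h1, h2, h3⟩ | rfl
    · rw [hac, tCn_anc, Option.some_inj]
      exact ⟨fun h => by rw [h], fun h => hacinj _ _ h⟩
    · rw [tCn_three _ (hGC _ h1).1]
      exact ⟨fun h => absurd h (by simp), fun h => absurd h (h3 j)⟩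
    · rw [hco, tCn_four _ rfl]
      exact ⟨fun h => absurd h (by simp), fun h => absurd h.symm (hacco j)⟩
  have htCX : ∀ c, (colsL1 n G y).get c ∈ Xl n G → P.tC c = none := fun c hc =>
    tCn_three _ (hGC _ hc).1
  have htCco : P.tC co = none := by
    show tCn ((colsL1 n G y).get co) = none
    rw [hco]
    exact tCn_four _ rfl
  have hctr : ∀ r s, P.tR r = none → P.rv r s = none → (∀ s', s' ≠ s → P.rv r s' ≠ none) ∧
      ∃ c, P.tC c = none ∧ c ≠ P.co ∧ P.z r c = true ∧ P.cv c s = some 1 := by
    intro r s h1 h2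
    have h0 : ((rowsL n).get r).1 ≠ 0 := (tRn_none n _ (hrow r)).1 h1
    obtain ⟨h3, c', hc', h4, h5⟩ := ctr_name n G _ (hrow r) h0 s h2
    refine ⟨h3, ?_⟩
    obtain ⟨c, hc1, hc2, rfl⟩ := hgm c' hc'
    refine ⟨c, htCX c hc', ?_, ?_, h5⟩
    · intro h6
      have h7 : (c : ℕ) = 3 + (Xl n G).length := by rw [h6]
      omega
    · show zn _ _ = true
      unfold zn
      rw [decide_eq_true_iff]
      exact ⟨h0, (hGC _ hc').1, h4⟩
  have hctc : ∀ c s, P.tC c = none → P.cv c s = none → ∃ r, P.tR r = none ∧ P.z r c = true ∧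
      P.rv r s = some 1 ∧ ∀ s', s' ≠ s → P.cv c s' = none → P.rv r s' = some 0 := by
    intro c s h1 h2
    rcases hcol c with ⟨i, rfl⟩ | ⟨h3, h4, h5⟩ | rfl
    · exfalso
      have h6 : P.tC (ac i) = some i := (htC _ _).2 rfl
      rw [h6] at h1
      exact absurd h1 (by simp)
    · obtain ⟨g1, g2, g3⟩ := hGC _ h3
      obtain ⟨a, ha, ha0, haz, har1, har2⟩ := g3 s h2
      obtain ⟨r, rfl⟩ := hexr a ha
      refine ⟨r, (tRn_none n _ ha).2 ha0, ?_, har1, har2⟩
      show zn _ _ = true
      unfold zn
      rw [decide_eq_true_iff]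
      exact ⟨ha0, g1, haz⟩
    · exfalso
      have h6 : cvn ((colsL1 n G y).get co) s = none := h2
      rw [hco] at h6
      fin_cases s <;> simp [cvn, oc] at h6
  have hcvco : ∀ s, P.cv P.co s = some (if s = 0 then 1 else 0) := by
    intro s
    show cvn ((colsL1 n G y).get co) s = _
    rw [hco]
    fin_cases s <;> simp [cvn, oc]
  have hOK : P.OK := by
    refine ⟨htR, htC, ?_, htCco, ?_, ?_, hcvco, ?_, ?_, ?_, hctr, hctc⟩
    · show tRn ((rowsL n).get ro) = none
      rw [hro]
      rfl
    · intro i s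
      show rvn ((rowsL n).get (ar i)) s = _
      rw [har]
      exact rvn_anchor i s
    · intro j s
      show cvn ((colsL1 n G y).get (ac j)) s = _
      rw [hac]
      exact cvn_anc j s
    · intro r
      show zn _ ((colsL1 n G y).get co) = false
      rw [hco]
      unfold zn
      simp [oc]
    · intro r s x h
      exact rvn_le n _ (hrow r) s x h
    · intro c s x h
      rcases hcol c with ⟨i, rfl⟩ | ⟨h3, h4, h5⟩ | rfl
      · have h6 : cvn ((colsL1 n G y).get (ac i)) s = some x := h
        rw [hac, cvn_anc, Option.some_inj] at h6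
        rw [← h6]
        split_ifs <;> simp
      · exact (hGC _ h3).2.1 s x h
      · have h6 : P.cv P.co s = some x := h
        rw [hcvco, Option.some_inj] at h6
        rw [← h6]
        split_ifs <;> simp
  have hrow0 : ∀ r, ((rowsL n).get r).1 = 0 → ∃ i : Fin 3, P.tR r = some i ∧
      (rowsL n).get r = (0, (i : ℕ)) := by
    intro r h0
    have h1 : tRn ((rowsL n).get r) ≠ none := fun h => (tRn_none n _ (hrow r)).1 h h0
    obtain ⟨i, hi⟩ := Option.ne_none_iff_exists'.1 h1
    exact ⟨i, hi, (tRn_iff _ _).1 hi⟩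
  have hrow1 : ∀ r, ((rowsL n).get r).1 ≠ 0 → P.tR r = none := fun r h0 =>
    (tRn_none n _ (hrow r)).2 h0
  have htCac : ∀ j, P.tC (ac j) = some j := fun j => (htC _ _).2 rfl
  refine ⟨P, ⟨hOK, ?_, ?_, ?_, ?_, ?_, har, ?_, hro, hco⟩⟩
  · -- E
    intro r c
    rcases hcol c with ⟨j, rfl⟩ | ⟨h3, h4, h5⟩ | rfl
    · unfold Pt.E
      simp only [htCac]
      rw [hac]
      show rvn ((rowsL n).get r) j = _
      have h6 : ¬ ((anc j).1 = 4 ∧ (rowsL n).get r ∈ (anc j).2.2) := by
        intro h
        have := h.2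
        simp [anc] at this
      have h7 : (anc j).1 < 3 := j.2
      unfold ent1 ent
      rw [if_neg h6, if_pos h7]
      rfl
    · have g1 := (hGC _ h3).1
      have h6 : ¬ (((colsL1 n G y).get c).1 = 4 ∧ (rowsL n).get r ∈ ((colsL1 n G y).get c).2.2) := by
        intro h
        rw [g1] at h
        omega
      have h7 : ¬ ((colsL1 n G y).get c).1 < 3 := by
        rw [g1]
        omega
      unfold ent1 ent
      rw [if_neg h6, if_neg h7]
      by_cases h0 : ((rowsL n).get r).1 = 0
      · obtain ⟨i, hi, hri⟩ := hrow0 r h0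
        rw [if_pos h0]
        unfold Pt.E
        simp only [htCX c h3, hi]
        show cvn ((colsL1 n G y).get c) i = _
        rw [hri]
        rfl
      · rw [if_neg h0]
        unfold Pt.E
        simp only [htCX c h3, hrow1 r h0]
        have h8 : ¬ (r = P.ro ∧ c = P.co) := fun h => h4 h.2
        rw [if_neg h8]
        by_cases h9 : (rowsL n).get r ∈ ((colsL1 n G y).get c).2.2
        · have h10 : P.z r c = true := by
            show zn _ _ = true
            unfold zn
            rw [decide_eq_true_iff]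
            exact ⟨h0, g1, h9⟩
          rw [if_pos h10, if_pos h9]
          simp
        · have h10 : ¬ P.z r c = true := by
            show ¬ zn _ _ = true
            unfold zn
            rw [decide_eq_true_iff]
            exact fun h => h9 h.2.2
          rw [if_neg h10, if_neg h9]
          simp
    · rw [hco]
      have h7 : ¬ (oc y).1 < 3 := by
        show ¬ (4 : ℕ) < 3
        omega
      by_cases h0 : ((rowsL n).get r).1 = 0
      · obtain ⟨i, hi, hri⟩ := hrow0 r h0
        have h6 : ¬ ((oc y).1 = 4 ∧ (rowsL n).get r ∈ (oc y).2.2) := by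
          intro h
          rw [hri] at h
          have := h.2
          simp [oc] at this
        unfold ent1 ent
        rw [if_neg h6, if_neg h7, if_pos h0]
        unfold Pt.E
        simp only [htCco, hi]
        show cvn ((colsL1 n G y).get co) i = _
        rw [hri, hco]
        rfl
      · unfold Pt.E
        simp only [htCco, hrow1 r h0]
        by_cases h8 : r = ro
        · have h9 : r = P.ro ∧ co = P.co := ⟨h8, rfl⟩
          rw [if_pos h9]
          have h6 : ((oc y).1 = 4 ∧ (rowsL n).get r ∈ (oc y).2.2) := by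
            refine ⟨rfl, ?_⟩
            rw [h8, hro]
            simp [oc]
          unfold ent1
          rw [if_pos h6]
          simp
        · have h9 : ¬ (r = P.ro ∧ co = P.co) := fun h => h8 h.1
          rw [if_neg h9]
          have h11 : (rowsL n).get r ∉ (oc y).2.2 := by
            intro h
            simp only [oc, List.mem_cons, List.not_mem_nil, or_false] at h
            exact h8 (hinj (h.trans hro.symm))
          have h6 : ¬ ((oc y).1 = 4 ∧ (rowsL n).get r ∈ (oc y).2.2) := fun h => h11 h.2
          have h10 : ¬ P.z r co = true := by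
            show ¬ zn _ ((colsL1 n G y).get co) = true
            rw [hco]
            unfold zn
            rw [decide_eq_true_iff]
            exact fun h => h11 h.2.2
          unfold ent1 ent
          rw [if_neg h10, if_neg h6, if_neg h7, if_neg h0, if_neg h11]
          simp
  · -- w
    intro W Q r c
    unfold Pt.w wtR wtC
    rw [Nat.cast_mul]
    congr 1
    · by_cases h0 : ((rowsL n).get r).1 = 0
      · obtain ⟨i, hi, hri⟩ := hrow0 r h0
        simp only [hi]
        rw [if_pos h0]
      · simp only [hrow1 r h0]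
        rw [if_neg h0]
        simp
    · rcases hcol c with ⟨j, rfl⟩ | ⟨h3, h4, h5⟩ | rfl
      · simp only [htCac]
        rw [hac]
        have h7 : (anc j).1 < 3 := j.2
        rw [if_pos h7]
        push_cast
        rfl
      · have g1 := (hGC _ h3).1
        simp only [htCX c h3]
        have h8 : ¬ c = P.co := h4
        have k1 : ¬ ((colsL1 n G y).get c).1 < 3 := by rw [g1]; omega
        have k2 : ¬ ((colsL1 n G y).get c).1 = 4 := by rw [g1]; omega
        rw [if_neg k1, if_neg k2, if_neg h8]
      · simp only [htCco]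
        rw [hco]
        have h7 : ¬ (oc y).1 < 3 := by
          show ¬ (4 : ℕ) < 3
          omega
        have h8 : (oc y).1 = 4 := rfl
        have h9 : co = P.co := rfl
        rw [if_neg h7, if_pos h8, if_pos h9]
        simp
  · -- N
    intro r c
    unfold Pt.N msk
    rcases hcol c with ⟨j, rfl⟩ | ⟨h3, h4, h5⟩ | rfl
    · simp only [htCac]
      rw [hac]
      have h7 : ((rowsL n).get r).1 = 0 ∨ (anc j).1 < 3 := Or.inr j.2
      rw [if_pos h7]
      simp
    · have g1 := (hGC _ h3).1
      by_cases h0 : ((rowsL n).get r).1 = 0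
      · obtain ⟨i, hi, hri⟩ := hrow0 r h0
        simp only [htCX c h3, hi]
        rw [if_pos (Or.inl h0)]
        simp
      · simp only [htCX c h3, hrow1 r h0]
        rw [if_neg (by rw [g1]; omega)]
        simp
    · by_cases h0 : ((rowsL n).get r).1 = 0
      · obtain ⟨i, hi, hri⟩ := hrow0 r h0
        simp only [htCco, hi]
        rw [if_pos (Or.inl h0)]
        simp
      · simp only [htCco, hrow1 r h0]
        have h7 : ¬ (((rowsL n).get r).1 = 0 ∨ ((colsL1 n G y).get co).1 < 3) := by
          rw [hco]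
          rintro (h | h)
          · exact h0 h
          · have : (4 : ℕ) < 3 := h
            omega
        rw [if_neg h7]
        simp
  · -- tR
    intro r
    show tRn _ ≠ none ↔ _
    rw [ne_eq, tRn_none n _ (hrow r), not_not]
  · -- tC
    intro c
    rcases hcol c with ⟨j, rfl⟩ | ⟨h3, h4, h5⟩ | rfl
    · rw [htCac, hac]
      exact ⟨fun _ => j.2, fun _ => by simp⟩
    · rw [htCX c h3, (hGC _ h3).1]
      exact ⟨fun h => absurd rfl h, fun h => by omega⟩
    · rw [htCco, hco]
      refine ⟨fun h => absurd rfl h, fun h => ?_⟩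
      have : (4 : ℕ) < 3 := h
      omega
  · intro j
    show ((colsL1 n G y).get (ac j)).1 = _
    rw [hac]
    rfl

end Pool.Agent.NPC.R537LR
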